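import Mathlib
import Pool.Agent.N290.RN.Stm
import Pool.Agent.N327.RM.SSG
import Pool.Agent.N655.RJ.LA1

/-!
# Project RN (helper290), part SSQ: small solutions near a boundary point, local weights (helper887)
-/

set_option autoImplicit false

open Complex MeasureTheory Set Filter Topology

namespace Pool.Agent.N887.RN

open Pool.Agent.N290.RJ Pool.Agent.N290.RK Pool.Agent.N290.RL Pool.Agent.N290.RM
open Pool.Agent.N290.RN
open Pool.Agent.N692.RK (vr m_fderiv nm_continuous)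
open Pool.Agent.N327.RM (num_m)
open Pool.Agent.N655.RJ (nm_add)

variable {d : ℕ}

theorem Oq_open (p : E d) (τ : ℝ) : IsOpen {z : E d | z ∈ B d ∧ nm (z - p) < τ} :=
  B_open.inter (isOpen_lt (nm_continuous.comp (continuous_id.sub continuous_const))
    continuous_const)

theorem nm_sub_comm (z w : E d) : nm (z - w) = nm (w - z) := by
  have h : z - w = (-1 : ℂ) • (w - z) := by
    rw [neg_one_smul, neg_sub]
  unfold nm
  rw [h, N_smulc]
  simp

/-- `1 - |z| ≤ |z - p|` for `|p| = 1` -/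
theorem one_sub_nm {p : E d} (hp : N p = 1) (z : E d) : 1 - nm z ≤ nm (z - p) := by
  have h1 : nm p = 1 := by
    unfold nm
    rw [hp, Real.sqrt_one]
  have h2 := nm_add z (p - z)
  have h3 : z + (p - z) = p := by abel
  rw [h3, h1, nm_sub_comm p z] at h2
  linarith

/-- the distance of `r z` to `p` -/
theorem nm_dil {p z : E d} {r : ℝ} (hr : r ≤ 1) : nm (r • z - p) ≤ nm (z - p) + (1 - r) * nm z := by
  have h1 : r • z - p = (z - p) + (r - 1) • z := by
    rw [sub_smul, one_smul]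
    abel
  have h2 : nm ((r - 1) • z) = (1 - r) * nm z := by
    have e : (r - 1) • z = (-1 : ℂ) • ((1 - r) • z) := by
      rw [neg_one_smul, ← neg_smul, neg_sub]
    have e' : nm ((-1 : ℂ) • ((1 - r) • z)) = nm ((1 - r) • z) := by
      unfold nm
      rw [N_smulc]
      simp
    rw [e, e', nm_smul _ (by linarith)]
  rw [h1]
  refine (nm_add _ _).trans ?_
  rw [h2]

theorem SSQ_of (d : ℕ) (h1 : S1 d) (hN : YN d) (hF : YF d) : SSQ d := by
  intro C₁ η R σ hC₁ hη hR hlim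
  obtain ⟨m, hm⟩ : ∃ m : ℝ, m = 256 * C₁ / η := ⟨_, rfl⟩
  have hm0 : 0 < m := by rw [hm]; positivity
  have hmC : (m : ℂ) ≠ 0 := by exact_mod_cast hm0.ne'
  have hCm : C₁ / m = η / 256 := by
    rw [hm]; field_simp
  have hCm0 : 0 < C₁ / m := by positivity
  have h256 : 256 * (C₁ / m) = η := by rw [hCm]; ring
  -- the choice of `k0`
  obtain ⟨k0, hk0, hk0', hkR⟩ : ∃ k0 : ℕ, (∀ t : ℝ, 0 < t → t ≤ 4 * (1 / 2) ^ k0 →
      2 * m * σ t ≤ 1) ∧ 4 * (1 / 2 : ℝ) ^ k0 ≤ 1 ∧ 2 * (1 / 2 : ℝ) ^ k0 ≤ R := by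
    have e1 : ∀ᶠ t in 𝓝[>] (0 : ℝ), σ t < 1 / (2 * m) :=
      hlim.eventually (gt_mem_nhds (by positivity))
    obtain ⟨ε, hε, hε2⟩ := mem_nhdsGT_iff_exists_Ioo_subset.1 e1
    have hε0 : (0 : ℝ) < ε := hε
    have e2 : Tendsto (fun k : ℕ => 4 * (1 / 2 : ℝ) ^ k) atTop (𝓝 0) := by
      have := (tendsto_pow_atTop_nhds_zero_of_lt_one (r := (1 / 2 : ℝ)) (by norm_num)
          (by norm_num)).const_mul 4
      rwa [mul_zero] at this
    have e3 : ∀ᶠ k : ℕ in atTop, 4 * (1 / 2 : ℝ) ^ k < ε := e2.eventually (gt_mem_nhds hε0)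
    have e4 : ∀ᶠ k : ℕ in atTop, 4 * (1 / 2 : ℝ) ^ k < 1 := e2.eventually (gt_mem_nhds one_pos)
    have e5 : ∀ᶠ k : ℕ in atTop, 4 * (1 / 2 : ℝ) ^ k < R := e2.eventually (gt_mem_nhds hR)
    obtain ⟨k, ⟨h5, h6⟩, h9⟩ := ((e3.and e4).and e5).exists
    refine ⟨k, fun t ht0 ht1 => ?_, h6.le, by
      have h10 : (0 : ℝ) < (1 / 2 : ℝ) ^ k := by positivity
      linarith⟩
    have h7 : σ t < 1 / (2 * m) := hε2 ⟨ht0, lt_of_le_of_lt ht1 h5⟩
    have h8 := mul_le_mul_of_nonneg_left h7.le (by positivity : 0 ≤ 2 * m)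
    rwa [mul_one_div_cancel (by positivity)] at h8
  obtain ⟨τ, hτ⟩ : ∃ τ : ℝ, τ = (1 / 2) ^ k0 := ⟨_, rfl⟩
  have hτ0 : 0 < τ := by rw [hτ]; positivity
  have hτ1 : τ ≤ 1 := by rw [hτ]; exact pow_le_one₀ (by norm_num) (by norm_num)
  rw [← hτ] at hk0 hk0' hkR
  obtain ⟨Ct, hCt⟩ : ∃ Ct : ℝ, Ct = (1 / τ) ^ (1 / 16 : ℝ) := ⟨_, rfl⟩
  have hCt0 : 0 ≤ Ct := by rw [hCt]; positivity
  obtain ⟨Cb, hCb⟩ : ∃ Cb : ℝ, Cb = 3 * C₁ * Ct := ⟨_, rfl⟩
  have hCb0 : 0 ≤ Cb := by rw [hCb]; positivity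
  obtain ⟨Ch, hCh⟩ : ∃ Ch : ℝ, Ch = 64 * (28 * m * C₁ + 66 * C₁) + Cb + 1 := ⟨_, rfl⟩
  have hCh0 : 0 < Ch := by rw [hCh]; positivity
  have hCh1 : 64 * (28 * m * C₁ + 66 * C₁) ≤ Ch := by rw [hCh]; linarith
  have hCh2 : Cb ≤ Ch := by
    rw [hCh]
    have : 0 ≤ 64 * (28 * m * C₁ + 66 * C₁) := by positivity
    linarith
  refine ⟨τ, Ch, k0, hτ0, hCh0, ?_⟩
  intro p hp f a P hf haw haσ hab hfa hP hPb
  set Om : Set (E d) := {z | z ∈ B d ∧ nm (z - p) < τ} with hOm
  have hOmo : IsOpen Om := Oq_open p τ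
  have hOmB : Om ⊆ B d := fun z hz => hz.1
  have ha0 : ∀ z ∈ B d, 0 ≤ a z := fun z hz => (haw.a2 z hz).1.le
  have hPd : ∀ k, ∀ z ∈ (B d), DifferentiableAt ℝ (P k) z := fun k z hz =>
    ((hP k).differentiableOn (by norm_num)).differentiableAt (B_open.mem_nhds hz)
  have hxj : ∀ j : ℕ, ∀ z ∈ B d, ∀ ξ,
      fderiv ℂ (fun w => (m : ℂ) * f (rad j • w)) z ξ = (m : ℂ) * xj f j z ξ := by
    intro j z hz ξ
    exact m_fderiv (da_hol hf (smul_mem_B hz (rad_nonneg j) (rad_lt_one j).le)) ξ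
  -- the first steps
  have hbase : ∀ k ≤ k0, ∀ z ∈ Om, ∀ ξ,
      ‖P k z * starRingEnd ℂ (xj f k z ξ)‖ ≤ Ch * (a z ^ 2 * len z ξ) * ww z k ^ 2 := by
    intro k hk z hz ξ
    have hzB := hz.1
    have hL := len_nonneg z ξ
    obtain ⟨-, -, hu0, hu1, -, -, -, -⟩ := hN z hzB k
    obtain ⟨-, -, -, hX⟩ := hF a f haw hf hfa k z hzB
    have hn := nm_nonneg z
    have hn1 : nm z < 1 := mem_B_nm.1 hzB
    have hNz : N z = nm z ^ 2 := (nm_sq z).symm
    have ht0 : 0 < 1 - N z := sub_pos.2 hzB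
    have ht2 : 1 - N z ≤ 1 := by
      have := N_nonneg z
      linarith
    have ht1 : 1 - nm z ≤ 1 - N z := by rw [hNz]; nlinarith
    have hrk : τ ≤ 1 - rad k * nm z := by
      have e1 : (1 / 2 : ℝ) ^ k0 ≤ (1 / 2) ^ k :=
        pow_le_pow_of_le_one (by norm_num) (by norm_num) hk
      have e2 : rad k = 1 - (1 / 2) ^ k := rfl
      have e4 : rad k * nm z ≤ rad k * 1 :=
        mul_le_mul_of_nonneg_left hn1.le (rad_nonneg k)
      rw [hτ]
      linarith
    have hw1 : ww z k ≤ Ct * (1 - N z) ^ (1 / 16 : ℝ) := by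
      unfold ww
      rw [hCt, ← Real.mul_rpow (by positivity) ht0.le]
      refine Real.rpow_le_rpow (div_nonneg (by linarith) (by linarith)) ?_ (by norm_num)
      have e5 : 1 / τ * (1 - N z) = (1 - N z) / τ := by ring
      rw [e5]
      exact div_le_div₀ ht0.le ht1 hτ0 hrk
    have hw2 : (1 - N z) ^ (1 / 16 : ℝ) ≤ 2 * a z := by
      have e6 : (1 - N z) ^ (1 / 16 : ℝ) ≤ (1 - N z) ^ (1 / 512 : ℝ) :=
        Real.rpow_le_rpow_of_exponent_ge ht0 ht2 (by norm_num)
      have e7 := hab z hzB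
      unfold bw at e7
      linarith
    have hw3 : ww z k ≤ Ct * (2 * a z) := hw1.trans (mul_le_mul_of_nonneg_left hw2 hCt0)
    have ha := ha0 z hzB
    rw [norm_mul, RCLike.norm_conj]
    have e3 : ‖P k z‖ * ‖xj f k z ξ‖ ≤ C₁ * (3 / 2 * a z * ww z k ^ 7 * len z ξ) :=
      mul_le_mul (hPb k z hzB).1 (hX ξ).1 (norm_nonneg _) hC₁.le
    refine e3.trans ?_
    have e4 : ww z k ^ 7 ≤ Ct * (2 * a z) * ww z k ^ 2 := by
      calc ww z k ^ 7 ≤ ww z k ^ 3 := pow_le_pow_of_le_one hu0.le hu1 (by norm_num)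
        _ = ww z k * ww z k ^ 2 := by ring
        _ ≤ Ct * (2 * a z) * ww z k ^ 2 := mul_le_mul_of_nonneg_right hw3 (by positivity)
    calc C₁ * (3 / 2 * a z * ww z k ^ 7 * len z ξ) =
          (C₁ * (3 / 2 * a z * len z ξ)) * ww z k ^ 7 := by ring
      _ ≤ (C₁ * (3 / 2 * a z * len z ξ)) * (Ct * (2 * a z) * ww z k ^ 2) :=
          mul_le_mul_of_nonneg_left e4 (by positivity)
      _ = Cb * (a z ^ 2 * len z ξ * ww z k ^ 2) := by rw [hCb]; ring
      _ ≤ Ch * (a z ^ 2 * len z ξ * ww z k ^ 2) :=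
          mul_le_mul_of_nonneg_right hCh2 (by positivity)
      _ = _ := by ring
  -- the recursion
  have key : ∀ j : ℕ, ContDiffOn ℝ 1 (vr (C₁ / m) m f P k0 j) Om ∧
      ∀ z ∈ Om, ‖vr (C₁ / m) m f P k0 j z‖ ≤ 256 * (C₁ / m) ∧
      ∀ ξ, ‖db (vr (C₁ / m) m f P k0 j) z ξ - P (k0 + j) z *
        starRingEnd ℂ (xj f (k0 + j) z ξ)‖ ≤
        Ch * (a z ^ 2 * len z ξ) * ww z (k0 + j) ^ 2 := by
    intro j
    induction j with
    | zero =>
      refine ⟨contDiffOn_const, fun z hz => ⟨?_, fun ξ => ?_⟩⟩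
      · simp only [vr, norm_zero]; positivity
      · have h6 : db (vr (C₁ / m) m f P k0 0) z ξ = 0 := by
          simp only [vr, db]
          simp
        rw [h6, zero_sub, norm_neg]
        exact hbase k0 le_rfl z hz ξ
    | succ j ih =>
      obtain ⟨ih1, ih2⟩ := ih
      set k := k0 + j with hk
      have hkk : k0 + (j + 1) = k + 1 := by omega
      rw [hkk]
      set r := rad k with hr
      set r' := rad (k + 1) with hr'
      have hr0 : 0 ≤ r := rad_nonneg k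
      have hr1 : r ≤ 1 := (rad_lt_one k).le
      have hr0' : 0 ≤ r' := rad_nonneg (k + 1)
      have hr1' : r' ≤ 1 := (rad_lt_one (k + 1)).le
      have hnm : ∀ z, ‖(m : ℂ) * f (r' • z) - (m : ℂ) * f (r • z)‖ =
          m * ‖f (r' • z) - f (r • z)‖ := by
        intro z
        rw [← mul_sub, norm_mul, Complex.norm_real, Real.norm_of_nonneg hm0.le]
      have hd1 : ∀ z ∈ Om, ‖(m : ℂ) * f (r' • z) - (m : ℂ) * f (r • z)‖ ≤ st k z := by
        intro z hz
        have hzB := hz.1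
        have hn := nm_nonneg z
        have hn1 : nm z < 1 := mem_B_nm.1 hzB
        have hNz : N z = nm z ^ 2 := (nm_sq z).symm
        obtain ⟨hs0, -, -, -, -, -, -, -⟩ := hN z hzB k
        obtain ⟨hd0, -, -, -⟩ := hF a f haw hf hfa k z hzB
        have hmem : r • z ∈ B d := smul_mem_B hzB hr0 hr1
        have e0 : 0 < 1 - N (r • z) := sub_pos.2 hmem
        have e1 : 1 - N (r • z) ≤ 4 * τ := by
          have e2 : N (r • z) = (r * nm z) ^ 2 := by rw [N_smul, hNz]; ring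
          have e4 : 0 ≤ r * nm z := mul_nonneg hr0 hn
          have e5 : r * nm z ≤ 1 * nm z := mul_le_mul_of_nonneg_right hr1 hn
          have e6 : (1 / 2 : ℝ) ^ k ≤ (1 / 2) ^ k0 :=
            pow_le_pow_of_le_one (by norm_num) (by norm_num) (by omega)
          have e7 : r = 1 - (1 / 2) ^ k := rfl
          have e8 : 1 - nm z < τ := lt_of_le_of_lt (one_sub_nm hp z) hz.2
          have e9 : 1 - r * nm z ≤ (1 - r) + (1 - nm z) := by
            nlinarith
          rw [← hτ] at e6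
          rw [e2]
          nlinarith
        have e2 : 2 * m * a (r • z) ≤ 1 := by
          have e30 : nm (r • z - p) < R := by
            have e31 := nm_dil (p := p) (z := z) hr1
            have e32 : nm (z - p) < τ := hz.2
            have e6 : (1 / 2 : ℝ) ^ k ≤ (1 / 2) ^ k0 :=
              pow_le_pow_of_le_one (by norm_num) (by norm_num) (by omega)
            have e7 : r = 1 - (1 / 2) ^ k := rfl
            rw [← hτ] at e6
            have e33 : (1 - r) * nm z ≤ τ := by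
              have e34 : 1 - r ≤ τ := by rw [e7]; linarith
              calc (1 - r) * nm z ≤ τ * 1 := mul_le_mul e34 hn1.le hn hτ0.le
                _ = τ := mul_one _
            linarith
          have e3 := haσ (r • z) hmem e30
          have e4 := hk0 (1 - N (r • z)) e0 e1
          have e5 : 2 * m * a (r • z) ≤ 2 * m * σ (1 - N (r • z)) :=
            mul_le_mul_of_nonneg_left e3 (by positivity)
          linarith
        rw [hnm]
        calc m * ‖f (r' • z) - f (r • z)‖ ≤ m * (2 * a (r • z) * st k z) :=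
              mul_le_mul_of_nonneg_left hd0 hm0.le
          _ = (2 * m * a (r • z)) * st k z := by ring
          _ ≤ 1 * st k z := mul_le_mul_of_nonneg_right e2 hs0
          _ = st k z := one_mul _
      have hd2 : ∀ z ∈ B d, ‖(m : ℂ) * f (r' • z) - (m : ℂ) * f (r • z)‖ ≤
          m * (2 * (a z / ww z k) * st k z) := by
        intro z hz
        obtain ⟨-, hd0, -, -⟩ := hF a f haw hf hfa k z hz
        rw [hnm]
        exact mul_le_mul_of_nonneg_left hd0 hm0.le
      have hPc : ∀ k z, z ∈ B d → ‖(m : ℂ)⁻¹ * P k z‖ ≤ C₁ / m := by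
        intro k z hz
        rw [norm_mul, norm_inv, Complex.norm_real, Real.norm_of_nonneg hm0.le, div_eq_inv_mul]
        exact mul_le_mul_of_nonneg_left (hPb k z hz).1 (by positivity)
      have hstep := fun (z : E d) (hz : z ∈ Om) (p' : ℝ) (ξ : E d)
        (hp1 : ‖fderiv ℝ (fun w => (m : ℂ)⁻¹ * P (k + 1) w) z ξ‖ ≤ p')
        (hp2 : ‖fderiv ℝ (fun w => (m : ℂ)⁻¹ * P (k + 1) w) z (I • ξ)‖ ≤ p') =>
        h1 (C₁ / m) p' (vr (C₁ / m) m f P k0 j) (fun w => (m : ℂ)⁻¹ * P k w)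
          (fun w => (m : ℂ)⁻¹ * P (k + 1) w) (fun w => (m : ℂ) * f (r • w))
          (fun w => (m : ℂ) * f (r' • w)) z ξ hCm0
          ((ih1.differentiableOn (by norm_num)).differentiableAt (hOmo.mem_nhds hz))
          ((hPd (k + 1) z hz.1).const_mul _)
          ((dil_hasFDerivAt (da_hol hf (smul_mem_B hz.1 hr0 hr1))).differentiableAt.const_mul _)
          ((dil_hasFDerivAt (da_hol hf (smul_mem_B hz.1 hr0' hr1'))).differentiableAt.const_mul _)
          (ih2 z hz).1 (hPc k z hz.1) (hPc (k + 1) z hz.1)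
          (by
            have e1 := hd1 z hz
            have e2 := (hN z hz.1 k).2.1
            linarith) hp1 hp2
          (fun w => ((m : ℂ)⁻¹ * P (k + 1) w) *
            starRingEnd ℂ ((m : ℂ) * f (r' • w) - (m : ℂ) * f (r • w)))
          (vr (C₁ / m) m f P k0 (j + 1)) (fun w => rfl) (fun w => rfl)
      refine ⟨?_, fun z hz => ⟨?_, fun ξ => ?_⟩⟩
      · -- regularity
        have hc0 : ContDiffOn ℝ 1 (fun w => (m : ℂ)⁻¹ * P (k + 1) w) Om :=
          contDiffOn_const.mul ((hP (k + 1)).mono hOmB)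
        have hc : ContDiffOn ℝ 1 (fun w => ((m : ℂ)⁻¹ * P (k + 1) w) *
            starRingEnd ℂ ((m : ℂ) * f (r' • w) - (m : ℂ) * f (r • w))) Om := by
          refine hc0.mul ?_
          exact (Complex.conjCLE.contDiff.comp_contDiffOn
            ((contDiffOn_const.mul ((cd_dil (cd_hol hf) hr0' hr1').mono hOmB)).sub
              (contDiffOn_const.mul ((cd_dil (cd_hol hf) hr0 hr1).mono hOmB))))
        have hc2 : ContDiffOn ℝ 1 (fun w => starRingEnd ℂ (((m : ℂ)⁻¹ * P (k + 1) w) *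
            starRingEnd ℂ ((m : ℂ) * f (r' • w) - (m : ℂ) * f (r • w)))) Om :=
          Complex.conjCLE.contDiff.comp_contDiffOn hc
        have hden : ContDiffOn ℝ 1 (fun w => 1 + starRingEnd ℂ (((m : ℂ)⁻¹ * P (k + 1) w) *
            starRingEnd ℂ ((m : ℂ) * f (r' • w) - (m : ℂ) * f (r • w))) *
              vr (C₁ / m) m f P k0 j w / (256 * (C₁ / m : ℝ)) ^ 2) Om :=
          ContDiffOn.add contDiffOn_const ((hc2.mul ih1).div_const _)
        have hinv := hden.inv (fun z hz =>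
          (hstep z hz _ 0 (le_max_left _ _) (le_max_right _ _)).2.1)
        refine ((ih1.add hc).mul hinv).congr fun w _ => ?_
        simp only [vr, div_eq_mul_inv]
        rfl
      · exact (hstep z hz _ 0 (le_max_left _ _) (le_max_right _ _)).1
      · -- the estimate
        have hzB := hz.1
        have hL := len_nonneg z ξ
        have ha := ha0 z hzB
        obtain ⟨hs0, hs1, hu0, hu1, -, h2u, hpow, -⟩ := hN z hzB k
        obtain ⟨-, -, hu0', hu1', -, -, -, -⟩ := hN z hzB (k + 1)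
        obtain ⟨-, -, -, hX⟩ := hF a f haw hf hfa k z hzB
        obtain ⟨-, -, -, hX'⟩ := hF a f haw hf hfa (k + 1) z hzB
        have hD0 : ‖(m : ℂ) * xj f k z ξ‖ ≤ m * (3 / 2 * a z * ww z k ^ 7 * len z ξ) := by
          rw [norm_mul, Complex.norm_real, Real.norm_of_nonneg hm0.le]
          exact mul_le_mul_of_nonneg_left (hX ξ).1 hm0.le
        have hD1 : ‖(m : ℂ) * xj f (k + 1) z ξ‖ ≤
            m * (3 / 2 * a z * ww z (k + 1) ^ 7 * len z ξ) := by
          rw [norm_mul, Complex.norm_real, Real.norm_of_nonneg hm0.le]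
          exact mul_le_mul_of_nonneg_left (hX' ξ).1 hm0.le
        have hPf : ∀ η : E d, len z η = len z ξ →
            ‖fderiv ℝ (fun w => (m : ℂ)⁻¹ * P (k + 1) w) z η‖ ≤
            C₁ / m * (a z * ww z (k + 1) ^ 3 * len z ξ) := by
          intro η hη
          rw [fderiv_const_mul (hPd (k + 1) z hzB)]
          rw [ContinuousLinearMap.smul_apply, norm_smul, norm_inv, Complex.norm_real,
            Real.norm_of_nonneg hm0.le]
          have e1 := (hPb (k + 1) z hzB).2.2 η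
          rw [hη] at e1
          have e2 := mul_le_mul_of_nonneg_left e1 (inv_nonneg.mpr hm0.le)
          refine e2.trans (le_of_eq ?_)
          ring
        have hdP : ‖(m : ℂ)⁻¹ * P k z - (m : ℂ)⁻¹ * P (k + 1) z‖ ≤
            C₁ / m * (a z * (st k z / ww z k)) := by
          rw [norm_sub_rev, ← mul_sub, norm_mul, norm_inv, Complex.norm_real,
            Real.norm_of_nonneg hm0.le]
          have e1 := (hPb k z hzB).2.1
          have e2 := mul_le_mul_of_nonneg_left e1 (inv_nonneg.mpr hm0.le)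
          refine e2.trans (le_of_eq ?_)
          ring
        have hmul : ∀ (p X : ℂ), (m : ℂ)⁻¹ * p * starRingEnd ℂ ((m : ℂ) * X) =
            p * starRingEnd ℂ X := by
          intro p X
          rw [map_mul, Complex.conj_ofReal]
          field_simp
        have hmain := (hstep z hz _ ξ (hPf ξ rfl) (hPf (I • ξ) (len_I z ξ))).2.2.1
        rw [hr, hr', hxj k z hzB ξ, hxj (k + 1) z hzB ξ, hmul, hmul] at hmain
        exact num_m hC₁ hm0 ha hL hu0 hu0' hu1 hu1' hs0 h2u (hpow 2 (by norm_num))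
          (hd1 z hz) (hd2 z hzB) (norm_nonneg _) (norm_nonneg _) hD0 hD1
          (by positivity) le_rfl hdP (norm_nonneg _) ((ih2 z hz).2 ξ) hCh1 hmain
  -- conclusion
  have hlast : ∀ (k : ℕ) (z : E d), z ∈ Om → ∀ ξ : E d,
      Ch * (a z ^ 2 * len z ξ) * ww z k ^ 2 ≤ Ch * a z ^ 2 * len z ξ := by
    intro k z hz ξ
    obtain ⟨-, -, hu0, hu1, -, -, -, -⟩ := hN z hz.1 k
    have h6 : ww z k ^ 2 ≤ 1 := pow_le_one₀ hu0.le hu1
    have h9 : 0 ≤ Ch * (a z ^ 2 * len z ξ) :=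
      mul_nonneg hCh0.le (mul_nonneg (sq_nonneg _) (len_nonneg _ _))
    calc _ ≤ Ch * (a z ^ 2 * len z ξ) * 1 := mul_le_mul_of_nonneg_left h6 h9
      _ = _ := by ring
  intro k hk
  obtain ⟨j, rfl⟩ := Nat.exists_eq_add_of_le hk
  obtain ⟨hk1, hk2⟩ := key j
  refine ⟨vr (C₁ / m) m f P k0 j, hk1, fun z hz hz' => ⟨?_, fun ξ => ?_⟩⟩
  · have := (hk2 z ⟨hz, hz'⟩).1
    rwa [h256] at this
  · exact ((hk2 z ⟨hz, hz'⟩).2 ξ).trans (hlast _ z ⟨hz, hz'⟩ ξ)

end Pool.Agent.N887.RN
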